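import Pool.Agent.helper78.NLS.Spec

set_option autoImplicit false

open Complex Metric Set Filter Topology MeasureTheory MPS
open Pool.Agent.helper98.ILF Pool.Agent.helper16.Multibrot

noncomputable section

namespace NLS

/-- OFS: convergence of the Cauchy transforms off the set `K`. -/
theorem OFS (hCTL : CTL_stmt) (hCTS : CTS_stmt) : OFS_stmt := by
  intro K h H hK hKn hK4 hSc hsup hH hHK hlim z hz
  have hinf : 0 < infDist z K := (hK.notMem_iff_infDist_pos hKn).1 hz
  set d : ℝ := infDist z K / 2 with hd
  have hdpos : 0 < d := by positivity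
  have hmem : ∀ k, MemLp (h k) 2 volume := by
    intro k
    have hc : Continuous (h k) := (hSc k).sm.continuous
    have hcs : HasCompactSupport (h k) := by
      refine HasCompactSupport.intro (isCompact_closedBall (0 : ℂ) 5) ?_
      intro w hw
      apply (hSc k).supp
      simp only [mem_closedBall, dist_zero_right, not_le] at hw
      exact hw.le
    exact hc.memLp_of_hasCompactSupport hcs
  -- integrability of the parts
  have hHint : Integrable (fun w : ℂ => H w / (z - w)) := by
    refine (hCTL 4 d H z (by norm_num) hdpos hH ?_ ?_).1
    · intro w hw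
      by_contra hne
      have := hK4 (hHK w hne)
      simp only [mem_ball, dist_zero_right] at this
      linarith
    · intro w hw
      have h1 : infDist z K ≤ dist z w := infDist_le_dist_of_mem (hHK w hw)
      rw [dist_eq_norm] at h1
      have h2 : d ≤ infDist z K := by rw [hd]; linarith
      linarith
  have key : ∀ᶠ k in atTop, ‖Ct (h k) z - (1 / Real.pi) * ∫ w : ℂ, H w / (z - w)‖ ≤
      5 / d * (eLpNorm (fun w => h k w - H w) 2 volume).toReal := by
    have h1 : Tendsto (fun k : ℕ => 1 / ((k : ℝ) + 1)) atTop (𝓝 0) := tendsto_one_div_add_atTop_nhds_zero_nat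
    filter_upwards [h1.eventually (gt_mem_nhds hdpos)] with k hk
    have hA := (hCTS.2 5 (h k) (hSc k)).2.2.2
    rw [hA.1 z]
    have hsub : (1 / (Real.pi : ℂ)) * (∫ w : ℂ, h k w / (z - w)) - (1 / (Real.pi : ℂ)) * ∫ w : ℂ, H w / (z - w) =
        ((1 / Real.pi : ℝ) : ℂ) * ∫ w : ℂ, (fun w => h k w - H w) w / (z - w) := by
      have h2 : (∫ w : ℂ, (fun w => h k w - H w) w / (z - w)) =
          (∫ w : ℂ, h k w / (z - w)) - ∫ w : ℂ, H w / (z - w) := by
        rw [← integral_sub (hA.2 z) hHint]
        refine integral_congr_ae (Eventually.of_forall ?_)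
        intro w
        simp only [sub_div]
      rw [h2]
      push_cast
      ring
    rw [hsub]
    refine (hCTL 5 d (fun w => h k w - H w) z (by norm_num) hdpos ((hmem k).sub hH) ?_ ?_).2
    · intro w hw
      have e1 : h k w = 0 := (hSc k).supp w hw
      have e2 : H w = 0 := by
        by_contra hne
        have := hK4 (hHK w hne)
        simp only [mem_ball, dist_zero_right] at this
        linarith
      simp [e1, e2]
    · intro w hw
      have hle : infDist w K ≤ d := by
        by_cases hh : h k w = 0
        · have hHne : H w ≠ 0 := by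
            intro h0
            exact hw (by simp [hh, h0])
          rw [infDist_zero_of_mem (hHK w hHne)]
          exact hdpos.le
        · exact le_trans (hsup k w hh) hk.le
      have h3 : infDist z K ≤ infDist w K + dist z w := infDist_le_infDist_add_dist
      rw [dist_eq_norm] at h3
      have h4 : infDist z K = 2 * d := by rw [hd]; ring
      linarith
  rw [tendsto_iff_norm_sub_tendsto_zero]
  have hz0 : Tendsto (fun k => 5 / d * (eLpNorm (fun w => h k w - H w) 2 volume).toReal) atTop (𝓝 0) := by
    have h5 : Tendsto (fun k => (eLpNorm (fun w => h k w - H w) 2 volume).toReal) atTop (𝓝 0) := by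
      have := (ENNReal.tendsto_toReal (ENNReal.zero_ne_top)).comp hlim
      rw [ENNReal.toReal_zero] at this
      exact this
    simpa using h5.const_mul (5 / d)
  exact squeeze_zero' (Eventually.of_forall fun k => norm_nonneg _) key hz0

end NLS
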